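import Mathlib

/-!
# Covering an expander by few long paths: definitions

`F` is a subgraph of `H` with maximum degree two and without short cycles.  A history rotates the
free end through untouched pivots which lie in a prescribed set of usable vertices.
-/

namespace Pool.Agent.PC

open Finset

variable {α : Type*} [Fintype α] [DecidableEq α]

/-- The vertices with a neighbour in `X`. -/
noncomputable def nb (H : SimpleGraph α) (X : Finset α) : Finset α := by
  classical exact univ.filter fun u => ∃ x ∈ X, H.Adj x u

/-- The degree. -/
noncomputable def dg (F : SimpleGraph α) (v : α) : ℕ := by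
  classical exact (univ.filter fun u => F.Adj v u).card

/-- There is a walk of length at most `r`. -/
def Near (F : SimpleGraph α) (r : ℕ) (u v : α) : Prop := ∃ p : F.Walk u v, p.length ≤ r

/-- No cycle of length at most `K`. -/
def NoShort (F : SimpleGraph α) (K : ℕ) : Prop :=
  ∀ (v : α) (c : F.Walk v v), c.IsCycle → K < c.length

/-- Subgraphs of maximum degree two without short cycles. -/
structure Good (H F : SimpleGraph α) (K : ℕ) : Prop where
  le : F ≤ H
  deg : ∀ v, dg F v ≤ 2
  short : NoShort F K

/-- Add the edge `v u` and remove the edge `u w`. -/
def rot (F : SimpleGraph α) (v u w : α) : SimpleGraph α :=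
  (F ⊔ SimpleGraph.edge v u) \ SimpleGraph.edge u w

/-- `Hist H F K U i F' v T`: the graph `F'` with free end `v` arises from `F` by at most `i`
rotations, with all places (the set `T`) among the usable vertices `U`. -/
inductive Hist (H F : SimpleGraph α) (K : ℕ) (U : α → Prop) :
    ℕ → SimpleGraph α → α → Finset α → Prop
  | start (x : α) : dg F x ≤ 1 → U x → Hist H F K U 0 F x {x}
  | stay {i : ℕ} {F' : SimpleGraph α} {v : α} {T : Finset α} :
      Hist H F K U i F' v T → Hist H F K U (i + 1) F' v T
  | step {i : ℕ} {F' : SimpleGraph α} {v : α} {T : Finset α} (u w : α) :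
      Hist H F K U i F' v T → H.Adj v u → u ∉ T → ¬ F.Adj v u → F.Adj u w → U u → U w →
      NoShort (rot F' v u w) K →
      Hist H F K U (i + 1) (rot F' v u w) w (insert u (insert w T))

/-- The ends which can be reached in at most `i` steps. -/
noncomputable def rch (H F : SimpleGraph α) (K : ℕ) (U : α → Prop) (i : ℕ) : Finset α := by
  classical exact univ.filter fun v => ∃ F' T, Hist H F K U i F' v T

/-- The vertices whose centres within distance `r` are all coloured `true`. -/
def Us (F : SimpleGraph α) (Z : Finset α) (r : ℕ) (ω : α → Bool) (u : α) : Prop :=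
  ∀ z ∈ Z, Near F r u z → ω z = true

end Pool.Agent.PC
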